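import Pool.Agent.Helper58.SU.StU
import Pool.Agent.Helper16.GK.M_WIN

/-!
# Project SU, module WINU: primes in progressions in almost all intervals of length `X^κ`, `κ > 2/5`
-/

set_option autoImplicit false

namespace Pool.Agent.Helper2.SU

open Finset ArithmeticFunction MeasureTheory
open Pool.Agent.Helper23.GK
open Pool.Agent.Helper48.BK (th)
open Pool.Agent.Helper2.MR (ch)
open Pool.Agent.Helper15.AB (IsW)
open Pool.Agent.Helper58.SU

/-- final estimate -/
private lemma fin_estU (A : ℕ) (C M Ct L L' x H G T δ y z : ℝ) (hC : 0 < C) (hM : 0 ≤ M)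
    (hCt : 0 < Ct) (hL : 10 ≤ L) (hx : 1 ≤ x) (hLx : L ^ (A + 4) ≤ √x) (hL' : L / 2 ≤ L')
    (hH0 : 0 ≤ H) (hH : H ≤ 4 * y) (hy0 : 0 < y) (hy : y ^ 2 ≤ x) (hz : L ^ (A + 4) ≤ z)
    (hG0 : 0 ≤ G) (hG : G ≤ 2 * L) (hT : 0 < T) (hTz : x * z ≤ 4 * y * T)
    (hδ : δ = 1 / L' ^ (A + 1)) (hG3 : Real.log (3 * x) ≤ 2 * L) (hG3' : 0 ≤ Real.log (3 * x))
    (hQ : 6000000 * (320 * 2 ^ (A + 1) + 256 * C ^ 2 + 1024 * (1 + M) ^ 2) + 512 * Ct ≤ L) :
    6000000 * (20 * H ^ 2 * x * δ + x * (2 * x * (C * G / T)) ^ 2 +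
        x * (H ^ 2 / x * G * (1 + M)) ^ 2) +
      2 * (H ^ 2 * (Ct * √(3 * x) * Real.log (3 * x) ^ 3)) ≤ x * y ^ 2 / L ^ A := by
  have hL0 : 0 < L := by linarith
  have hL1 : 1 ≤ L := by linarith
  have hx0 : 0 < x := by linarith
  have hL'0 : 0 < L' := by linarith
  have hs : √x ^ 2 = x := Real.sq_sqrt hx0.le
  have hs1 : 1 ≤ √x := by rw [Real.one_le_sqrt]; exact hx
  have hH2 : H ^ 2 ≤ 16 * y ^ 2 := by
    have := pow_le_pow_left₀ hH0 hH 2
    rw [mul_pow] at this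
    linarith
  have hP : 0 < L ^ (A + 1) := by positivity
  have hP4 : 0 < L ^ (A + 4) := by positivity
  have hP41 : 1 ≤ L ^ (A + 4) := one_le_pow₀ hL1
  have hz0 : 0 < z := lt_of_lt_of_le hP4 hz
  have hL3 : L ^ 2 * L ^ (A + 1) ≤ L ^ (A + 4) := by
    rw [← pow_add]
    exact pow_le_pow_right₀ hL1 (by omega)
  set W : ℝ := x * y ^ 2 / L ^ (A + 1) with hW
  have hW0 : 0 ≤ W := by positivity
  -- the first term
  have t1 : 20 * H ^ 2 * x * δ ≤ (320 * 2 ^ (A + 1)) * W := by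
    have h1 : δ ≤ 2 ^ (A + 1) / L ^ (A + 1) := by
      rw [hδ, ← div_pow, show (2 : ℝ) / L = 1 / (L / 2) by field_simp, div_pow, one_pow]
      apply one_div_le_one_div_of_le (by positivity)
      exact pow_le_pow_left₀ (by positivity) hL' _
    have h2 : 0 ≤ δ := by rw [hδ]; positivity
    calc 20 * H ^ 2 * x * δ ≤ 20 * (16 * y ^ 2) * x * (2 ^ (A + 1) / L ^ (A + 1)) := by
          apply mul_le_mul _ h1 h2 (by positivity)
          apply mul_le_mul_of_nonneg_right _ hx0.le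
          linarith
      _ = _ := by
          rw [hW]
          ring
  have t2 : x * (2 * x * (C * G / T)) ^ 2 ≤ (256 * C ^ 2) * W := by
    have h1 : x / T ≤ 4 * y / z := by
      rw [div_le_div_iff₀ hT hz0]
      linarith
    have h3 : 2 * x * (C * G / T) ≤ 16 * C * (L * y / z) := by
      calc 2 * x * (C * G / T) = 2 * C * G * (x / T) := by ring
        _ ≤ 2 * C * (2 * L) * (4 * y / z) := by
            apply mul_le_mul _ h1 (by positivity) (by positivity)
            exact mul_le_mul_of_nonneg_left hG (by positivity)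
        _ = _ := by ring
    have h0 : 0 ≤ 2 * x * (C * G / T) := by positivity
    have h4 : L ^ 2 / z ^ 2 ≤ 1 / L ^ (A + 1) := by
      rw [div_le_div_iff₀ (by positivity) hP, one_mul]
      refine hL3.trans (hz.trans ?_)
      have : 1 ≤ z := hP41.trans hz
      nlinarith
    calc x * (2 * x * (C * G / T)) ^ 2 ≤ x * (16 * C * (L * y / z)) ^ 2 :=
          mul_le_mul_of_nonneg_left (pow_le_pow_left₀ h0 h3 2) hx0.le
      _ = (256 * C ^ 2) * (x * y ^ 2 * (L ^ 2 / z ^ 2)) := by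
          rw [mul_pow, div_pow]
          ring
      _ ≤ (256 * C ^ 2) * (x * y ^ 2 * (1 / L ^ (A + 1))) := by
          apply mul_le_mul_of_nonneg_left _ (by positivity)
          exact mul_le_mul_of_nonneg_left h4 (by positivity)
      _ = _ := by
          rw [hW]
          ring
  have hxL : L ^ 2 ≤ x / L ^ (A + 1) := by
    rw [le_div_iff₀ hP]
    have h2 : √x ≤ x := by nlinarith
    exact hL3.trans (hLx.trans h2)
  have t3 : x * (H ^ 2 / x * G * (1 + M)) ^ 2 ≤ (1024 * (1 + M) ^ 2) * W := by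
    have h1 : H ^ 2 / x * G * (1 + M) ≤ 16 * y ^ 2 / x * (2 * L) * (1 + M) := by
      apply mul_le_mul_of_nonneg_right _ (by linarith)
      apply mul_le_mul _ hG hG0 (by positivity)
      exact div_le_div_of_nonneg_right hH2 hx0.le
    have h0 : 0 ≤ H ^ 2 / x * G * (1 + M) := by positivity
    have h2 : y ^ 2 / x ≤ 1 := by
      rw [div_le_one hx0]
      exact hy
    calc x * (H ^ 2 / x * G * (1 + M)) ^ 2 ≤ x * (16 * y ^ 2 / x * (2 * L) * (1 + M)) ^ 2 :=
          mul_le_mul_of_nonneg_left (pow_le_pow_left₀ h0 h1 2) hx0.le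
      _ = (1024 * (1 + M) ^ 2) * (y ^ 2 * (y ^ 2 / x) * L ^ 2) := by
          field_simp
          ring
      _ ≤ (1024 * (1 + M) ^ 2) * (y ^ 2 * 1 * (x / L ^ (A + 1))) := by
          apply mul_le_mul_of_nonneg_left _ (by positivity)
          apply mul_le_mul _ hxL (by positivity) (by positivity)
          exact mul_le_mul_of_nonneg_left h2 (by positivity)
      _ = _ := by
          rw [hW]
          ring
  have t4 : 2 * (H ^ 2 * (Ct * √(3 * x) * Real.log (3 * x) ^ 3)) ≤ (512 * Ct) * W := by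
    have h1 : √(3 * x) ≤ 2 * √x := by
      have : 2 * √x = √(4 * x) := by
        rw [Real.sqrt_mul (by norm_num), show (4 : ℝ) = 2 ^ 2 by norm_num,
          Real.sqrt_sq (by norm_num)]
      rw [this]
      apply Real.sqrt_le_sqrt
      linarith
    have h2 : Real.log (3 * x) ^ 3 ≤ (2 * L) ^ 3 := pow_le_pow_left₀ hG3' hG3 3
    have h3 : √x * L ^ 3 ≤ x / L ^ (A + 1) := by
      rw [le_div_iff₀ hP]
      have h1 : L ^ 3 * L ^ (A + 1) = L ^ (A + 4) := by rw [← pow_add]; congr 1; omega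
      calc √x * L ^ 3 * L ^ (A + 1) = √x * L ^ (A + 4) := by rw [mul_assoc, h1]
        _ ≤ √x * √x := mul_le_mul_of_nonneg_left hLx (by positivity)
        _ = x := by rw [← sq, hs]
    have h4 : Ct * √(3 * x) * Real.log (3 * x) ^ 3 ≤ Ct * (2 * √x) * (2 * L) ^ 3 := by
      apply mul_le_mul _ h2 (by positivity) (by positivity)
      exact mul_le_mul_of_nonneg_left h1 hCt.le
    calc 2 * (H ^ 2 * (Ct * √(3 * x) * Real.log (3 * x) ^ 3))
        ≤ 2 * ((16 * y ^ 2) * (Ct * (2 * √x) * (2 * L) ^ 3)) := by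
          apply mul_le_mul_of_nonneg_left _ (by norm_num)
          apply mul_le_mul hH2 h4 (by positivity) (by positivity)
      _ = (512 * Ct) * (y ^ 2 * (√x * L ^ 3)) := by ring
      _ ≤ (512 * Ct) * (y ^ 2 * (x / L ^ (A + 1))) := by
          apply mul_le_mul_of_nonneg_left _ (by positivity)
          exact mul_le_mul_of_nonneg_left h3 (by positivity)
      _ = _ := by
          rw [hW]
          ring
  have h5 : x * y ^ 2 / L ^ A = L * W := by
    have h8 : L ^ (A + 1) = L ^ A * L := pow_succ L A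
    rw [hW, h8]
    field_simp
  rw [h5]
  have h7 := mul_le_mul_of_nonneg_right hQ hW0
  linarith

private lemma ev_pow' (n : ℕ) {s : ℝ} (hs : 0 < s) :
    ∀ᶠ X : ℕ in Filter.atTop, Real.log X ^ n ≤ (X : ℝ) ^ s := by
  have h := (isLittleO_log_rpow_rpow_atTop (n : ℝ) hs).bound one_pos
  have h2 := (tendsto_natCast_atTop_atTop (R := ℝ)).eventually h
  have h3 : ∀ᶠ X : ℕ in Filter.atTop, 1 ≤ X := Filter.eventually_ge_atTop 1
  filter_upwards [h2, h3] with X hX hX1
  have hlog : 0 ≤ Real.log X := Real.log_nonneg (by exact_mod_cast hX1)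
  rw [Real.rpow_natCast, Real.norm_eq_abs, abs_of_nonneg (pow_nonneg hlog n), one_mul,
    Real.norm_eq_abs, abs_of_nonneg (Real.rpow_nonneg (Nat.cast_nonneg X) s)] at hX
  exact hX

open Pool.Agent.Helper16.GK.WIN Filter in
theorem hWINU (h1 : StTotu) (h2 : StSha) : StWinu := by
  intro κ hκ hκ2 A B
  set η : ℝ := (κ - 2 / 5) / 2 with hη
  have hη0 : 0 < η := by rw [hη]; linarith
  set τ : ℝ := 1 - κ + η with hτ
  have hτ0 : 0 < τ := by rw [hτ]; linarith
  have hτ1 : τ < 3 / 5 := by rw [hτ, hη]; linarith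
  obtain ⟨w, hw⟩ := Pool.Agent.Helper15.AB.hWE
  obtain ⟨M, hM0, hM⟩ := Pool.Agent.Helper15.AB.hT1.exists_lip w hw
  obtain ⟨C, hC, hsha⟩ := h2
  obtain ⟨hth, Ct, hCt, hth2⟩ := Pool.Agent.Helper48.BK.hTh
  obtain ⟨X1, hX1⟩ := h1 w hw τ hτ1 (A + 1) (B + 1)
  have hM' : ∀ s t : ℝ, s ≤ t → |w s - w t| ≤ M * (t - s) := fun s t hst =>
    (hM s t hst).trans (mul_le_mul_of_nonneg_left (cl_lip s t hst) hM0)
  set Q : ℝ := 6000000 * (320 * 2 ^ (A + 1) + 256 * C ^ 2 + 1024 * (1 + M) ^ 2) + 512 * Ct with hQ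
  have hlog : Tendsto (fun X : ℕ => Real.log X) atTop atTop :=
    Real.tendsto_log_atTop.comp tendsto_natCast_atTop_atTop
  have e1 : ∀ᶠ X : ℕ in atTop, 2 * X1 + 1000 ≤ X := eventually_ge_atTop _
  have e2 : ∀ᶠ X : ℕ in atTop, (4000 : ℝ) ≤ √X := by
    have : Tendsto (fun X : ℕ => √(X : ℝ)) atTop atTop :=
      Real.tendsto_sqrt_atTop.comp tendsto_natCast_atTop_atTop
    exact this.eventually_ge_atTop _
  have e3 : ∀ᶠ X : ℕ in atTop, Real.log X ^ (A + 4) ≤ (X : ℝ) ^ (1 / 2 : ℝ) :=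
    ev_pow' (A + 4) (by norm_num)
  have e3' : ∀ᶠ X : ℕ in atTop, Real.log X ^ (A + 4) ≤ (X : ℝ) ^ η := ev_pow' (A + 4) hη0
  have e4 : ∀ᶠ X : ℕ in atTop, 10 ≤ Real.log X := hlog.eventually_ge_atTop _
  have e5 : ∀ᶠ X : ℕ in atTop, Q ≤ Real.log X := hlog.eventually_ge_atTop _
  have e6 : ∀ᶠ X : ℕ in atTop, (2 : ℝ) ^ (B + 1) ≤ Real.log X := hlog.eventually_ge_atTop _
  obtain ⟨X0, hX0⟩ := eventually_atTop.1 (e1.and (e2.and (e3.and (e3'.and (e4.and (e5.and e6))))))
  refine ⟨X0, fun X hX q u H hq hqB hHK => ?_⟩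
  obtain ⟨f1, f2, f3, f3', f4, f5, f6⟩ := hX0 X hX
  rw [← Real.sqrt_eq_rpow] at f3
  rcases Nat.eq_zero_or_pos H with hH0 | hH1
  · subst hH0
    have : ∀ N ∈ Ioc X (2 * X), dsc N 0 q u ^ 2 = 0 := by
      intro N _
      simp [dsc]
    rw [Finset.sum_congr rfl this, Finset.sum_const_zero]
    have : 0 ≤ Real.log X := by linarith
    positivity
  set X' : ℕ := 9 * X / 10 with hX'
  have hXr : (1000 : ℝ) ≤ X := by exact_mod_cast (by omega : 1000 ≤ X)
  have hXpos : (0 : ℝ) < X := by linarith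
  have hX'1 : 10 * X' ≤ 9 * X := by omega
  have hX'2 : 9 * X ≤ 10 * X' + 9 := by omega
  have hX'1r : 10 * (X' : ℝ) ≤ 9 * X := by exact_mod_cast hX'1
  have hX'2r : 9 * (X : ℝ) ≤ 10 * X' + 9 := by exact_mod_cast hX'2
  have hXs : √(X : ℝ) * √(X : ℝ) = X := Real.mul_self_sqrt (by linarith)
  set y : ℝ := (X : ℝ) ^ κ with hy
  have hy0 : 0 < y := Real.rpow_pos_of_pos hXpos _
  have hys : y ≤ √(X : ℝ) := by
    rw [Real.sqrt_eq_rpow, hy]
    exact Real.rpow_le_rpow_of_exponent_le (by linarith) hκ2.le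
  have hyy : y ^ 2 ≤ X := by
    calc y ^ 2 ≤ √(X : ℝ) ^ 2 := pow_le_pow_left₀ hy0.le hys 2
      _ = X := by rw [sq, hXs]
  have hHr : (H : ℝ) ≤ X / 1000 := by
    have : (4000 : ℝ) * √X ≤ √X * √X := mul_le_mul_of_nonneg_right f2 (Real.sqrt_nonneg _)
    rw [hXs] at this
    linarith
  set L := Real.log X with hL
  set L' := Real.log (X' : ℝ) with hL'
  have hX'pos : (0 : ℝ) < X' := by linarith
  have hLL' : L ≤ 1 + L' := by
    rw [hL, hL', ← Real.log_exp 1, ← Real.log_mul (Real.exp_pos 1).ne' hX'pos.ne']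
    apply Real.log_le_log (by linarith)
    have := Real.exp_one_gt_d9
    nlinarith
  have hL'L : L' ≤ L := Real.log_le_log hX'pos (by linarith)
  have hL'2 : L / 2 ≤ L' := by linarith
  have hqB' : (q : ℝ) ≤ L' ^ (B + 1) := by
    refine hqB.trans ?_
    calc L ^ B ≤ (2 * L') ^ B := pow_le_pow_left₀ (by linarith) (by linarith) _
      _ = 2 ^ B * L' ^ B := by rw [mul_pow]
      _ ≤ L' * L' ^ B := by
          apply mul_le_mul_of_nonneg_right _ (by
            have : 0 ≤ L' := by linarith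
            positivity)
          rw [pow_succ] at f6
          linarith
      _ = L' ^ (B + 1) := by ring
  set T : ℝ := (X' : ℝ) ^ τ with hT
  have hT0 : 0 < T := Real.rpow_pos_of_pos hX'pos _
  have hT1 : 1 ≤ T := Real.one_le_rpow (by linarith) hτ0.le
  have hTX : T ≤ X' := by
    calc T ≤ (X' : ℝ) ^ (1 : ℝ) :=
          Real.rpow_le_rpow_of_exponent_le (by linarith) (by linarith)
      _ = X' := Real.rpow_one _
  have hTz : (X : ℝ) * (X : ℝ) ^ η ≤ 4 * y * T := by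
    have h3 : (X : ℝ) ^ τ / 4 ≤ T := by
      have k1 : ((X : ℝ) / 4) ^ τ ≤ T :=
        Real.rpow_le_rpow (by positivity) (by linarith) hτ0.le
      refine le_trans ?_ k1
      rw [Real.div_rpow hXpos.le (by norm_num)]
      apply div_le_div_of_nonneg_left (by positivity) (by positivity)
      calc (4 : ℝ) ^ τ ≤ 4 ^ (1 : ℝ) :=
            Real.rpow_le_rpow_of_exponent_le (by norm_num) (by linarith)
        _ = 4 := Real.rpow_one _
    have h4 : (X : ℝ) * (X : ℝ) ^ η = y * (X : ℝ) ^ τ := by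
      rw [hy, ← Real.rpow_add hXpos, ← Real.rpow_one_add' hXpos.le (by linarith)]
      congr 1
      rw [hτ]
      ring
    rw [h4]
    have := mul_le_mul_of_nonneg_left h3 hy0.le
    linarith
  have hHn : H ≤ X' := by
    have : (H : ℝ) ≤ X' := by linarith
    exact_mod_cast this
  have h3n : 2 * X + H ≤ 3 * X' := by
    have : 2 * (X : ℝ) + H ≤ 3 * X' := by linarith
    exact_mod_cast this
  have hen : Real.exp (0.1 : ℝ) * 0.9 ≤ 1 := by
    have h3 : (1 : ℝ) - 0.1 ≤ Real.exp (-0.1) := Real.one_sub_le_exp_neg 0.1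
    have h4 : Real.exp (0.1 : ℝ) * Real.exp (-0.1) = 1 := by rw [← Real.exp_add]; norm_num
    nlinarith [Real.exp_pos (0.1 : ℝ)]
  have hep : (2.4 : ℝ) ≤ Real.exp 0.9 := by
    have h3 : (1 : ℝ) - 0.1 ≤ Real.exp (-0.1) := Real.one_sub_le_exp_neg 0.1
    have h4 : Real.exp (0.9 : ℝ) = Real.exp 1 * Real.exp (-0.1) := by rw [← Real.exp_add]; norm_num
    have h5 := Real.exp_one_gt_d9
    rw [h4]
    nlinarith
  have hlo : Real.exp 0.1 * (X' : ℝ) ≤ X := by
    have h3 : Real.exp 0.1 * (X' : ℝ) ≤ Real.exp 0.1 * (0.9 * X) :=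
      mul_le_mul_of_nonneg_left (by linarith) (Real.exp_pos _).le
    nlinarith
  have hhi : 2 * (X : ℝ) ≤ Real.exp 0.9 * X' := by
    have h3 : 2.4 * (X' : ℝ) ≤ Real.exp 0.9 * X' := mul_le_mul_of_nonneg_right hep hX'pos.le
    linarith
  have htot := hX1 X' (by omega) q u hq hqB'
  have hmain := total w hw M hM0 hM' C hsha Ct hth hth2 X X' q u H T
    (1 / L' ^ (A + 1)) (by omega) (by omega) hH1 (by omega) hHn
    (by omega) h3n hlo hhi hT1 hTX htot
  refine le_trans (le_of_eq ?_) (hmain.trans ?_)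
  · refine Finset.sum_congr rfl fun N _ => ?_
    unfold dsc
    congr 1
  have hl3 : Real.log (3 * (X : ℝ)) ≤ L + 2 := by
    rw [Real.log_mul (by norm_num) (by linarith)]
    have : Real.log 3 ≤ 2 := by
      rw [Real.log_le_iff_le_exp (by norm_num)]
      have h5 := Real.add_one_le_exp (2 : ℝ)
      linarith
    linarith
  have hl3' : 0 ≤ Real.log (3 * (X : ℝ)) := Real.log_nonneg (by linarith)
  have hX1r : (1 : ℝ) ≤ X := by linarith
  have hH0r : (0 : ℝ) ≤ H := Nat.cast_nonneg H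
  have hGr0 : 0 ≤ Real.log (3 * (X : ℝ)) + 1 := by linarith
  have hGr : Real.log (3 * (X : ℝ)) + 1 ≤ 2 * L := by linarith
  have hGr' : Real.log (3 * (X : ℝ)) ≤ 2 * L := by linarith
  rw [hQ] at f5
  clear_value L L' Q
  exact fin_estU A C M Ct L L' X H (Real.log (3 * X) + 1) T
    (1 / L' ^ (A + 1)) y ((X : ℝ) ^ η) hC hM0 hCt f4 hX1r f3 hL'2 hH0r hHK hy0 hyy f3'
    hGr0 hGr hT0 hTz rfl hGr' hl3' f5

end Pool.Agent.Helper2.SU
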